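import Pool.Agent.H57.LH.Targets2
import Pool.Agent.H44.KR.Small

/-!
# Row OPV: types of values for each shape
-/

set_option autoImplicit false

namespace Pool.Agent.H49.LH

open Pool.Agent.H68.BP Pool.Agent.H58.SF Pool.Agent.H53.GC Pool.Agent.H53.NR
open Pool.Agent.H53.GR (Dm Ps)
open Pool.Agent.H53.GM (Adj)
open Pool.Agent.H57.AR (tp ty tpo pullO Ty OT HomEq El ElD FamR Od GmR INJ lft)
open Pool.Agent.H57.SO (Pal Col vt Bh Sbn fib sigF)
open Pool.Agent.H57.EQ (Cx T_CYF)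
open Pool.Agent.H57.LCI (LocalCompletions Pre Realizes)
open Pool.Agent.H44.KR (HB Amg Tyi Rz Rlz Clp LInj Prm TpOn RmL LcN Pl lr blk Fv kv kd RkI Kd JJ Yc
  IsTh Can Plf Pls plc At inSh Cfg AdT Ent reg col2 exists_rk)
open Pool.Agent.H57.LH Function

/-- the position of an index of a pair of blocks -/
def pj : JJ → Fin 6 := Sum.elim id id

theorem elim_self {A : Type} (b : Fin 6 → A) (i : JJ) : Sum.elim b b i = b (pj i) := by
  rcases i with i | i <;> rfl

/-- The kind depends only on the types of the entries. -/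
theorem kind_eq {V : Type} {ρ : Sig} (𝔹 : Str ρ V) (har : ∀ l, 1 ≤ ρ.ar l) {L : ℕ} {r : Fin 3}
    {j : ℕ} (h : Plf L r j) (x x' : Fin 2 → V) (rk rk' : Pl L × V → ℕ)
    (hx : ∀ d, ty 𝔹 (x d) = ty 𝔹 (x' d)) :
    kv 𝔹 rk (Sum.elim (blk L r j (fun c => x (lr r c))) (blk L r j (fun c => x (lr r c)))) =
      kv 𝔹 rk' (Sum.elim (blk L r j (fun c => x' (lr r c)))
        (blk L r j (fun c => x' (lr r c)))) := by
  have hlr : ∀ c c', Ent r j c c' → lr r c = lr r c' := by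
    rintro c c' (e | e)
    · rw [e]
    · exact e.1
  have heq : ∀ (y : Fin 2 → V) (c c' : Fin 6), plc L r j c = plc L r j c' →
      blk L r j (fun c => y (lr r c)) c = blk L r j (fun c => y (lr r c)) c' := by
    intro y c c' e
    unfold blk
    exact Prod.ext e (congrArg y (hlr c c' ((h.eq c c').1 e)))
  unfold kv kd
  refine Prod.ext ?_ (Prod.ext ?_ (Prod.ext ?_ ?_))
  · funext i
    show (Sum.elim _ _ i : Pl L × V).1 = (Sum.elim _ _ i : Pl L × V).1
    rw [elim_self, elim_self]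
    rfl
  · funext i i'
    show (Sum.elim _ _ i = Sum.elim _ _ i') = (Sum.elim _ _ i = Sum.elim _ _ i')
    rw [elim_self, elim_self, elim_self, elim_self]
    apply propext
    constructor
    · intro e
      exact heq x' _ _ (congrArg Prod.fst e)
    · intro e
      exact heq x _ _ (congrArg Prod.fst e)
  · funext i i'
    show ((Sum.elim _ _ i : Pl L × V).1 = (Sum.elim _ _ i' : Pl L × V).1 ∧
        rk (Sum.elim _ _ i) < rk (Sum.elim _ _ i')) =
      ((Sum.elim _ _ i : Pl L × V).1 = (Sum.elim _ _ i' : Pl L × V).1 ∧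
        rk' (Sum.elim _ _ i) < rk' (Sum.elim _ _ i'))
    rw [elim_self, elim_self, elim_self, elim_self]
    apply propext
    constructor
    · rintro ⟨e, e'⟩
      rw [heq x _ _ e] at e'
      exact absurd e' (lt_irrefl _)
    · rintro ⟨e, e'⟩
      rw [heq x' _ _ e] at e'
      exact absurd e' (lt_irrefl _)
  · funext l z
    show ((∃ Z, ∀ i, inSh Z (Sum.elim _ _ (z i) : Pl L × V).1) ∧
        𝔹 l (fun i => (Sum.elim _ _ (z i) : Pl L × V).2)) =
      ((∃ Z, ∀ i, inSh Z (Sum.elim _ _ (z i) : Pl L × V).1) ∧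
        𝔹 l (fun i => (Sum.elim _ _ (z i) : Pl L × V).2))
    simp only [elim_self]
    apply propext
    have key : ∀ (y y' : Fin 2 → V), (∀ d, ty 𝔹 (y d) = ty 𝔹 (y' d)) →
        ((∃ Z, ∀ i, inSh Z (blk L r j (fun c => y (lr r c)) (pj (z i))).1) ∧
          𝔹 l (fun i => (blk L r j (fun c => y (lr r c)) (pj (z i))).2)) →
        ((∃ Z, ∀ i, inSh Z (blk L r j (fun c => y' (lr r c)) (pj (z i))).1) ∧
          𝔹 l (fun i => (blk L r j (fun c => y' (lr r c)) (pj (z i))).2)) := by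
      rintro y y' hy ⟨⟨Z, hZ⟩, hb⟩
      refine ⟨⟨Z, hZ⟩, ?_⟩
      let i₀ : Fin (ρ.ar l) := ⟨0, har l⟩
      have hd : ∀ i, lr r (pj (z i)) = lr r (pj (z i₀)) := fun i =>
        hlr _ _ (h.sh Z _ _ (hZ i) (hZ i₀))
      have e1 : (fun i => (blk L r j (fun c => y (lr r c)) (pj (z i))).2) =
          fun _ => y (lr r (pj (z i₀))) := by
        funext i
        exact congrArg y (hd i)
      have e2 : (fun i => (blk L r j (fun c => y' (lr r c)) (pj (z i))).2) =
          fun _ => y' (lr r (pj (z i₀))) := by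
        funext i
        exact congrArg y' (hd i)
      rw [e2]
      rw [e1] at hb
      have e3 : ty 𝔹 (y (lr r (pj (z i₀)))) l = ty 𝔹 (y' (lr r (pj (z i₀)))) l :=
        congrFun (hy (lr r (pj (z i₀)))) l
      exact e3.mp hb
    exact ⟨key x x' hx, key x' x (fun d => (hx d).symm)⟩

theorem pf_OPV : T_OPV := by
  intro V σ ρ 𝔸 𝔹 L Φ hB hC r j h
  have key : ∀ t : Fin 2 → SS 𝔹, ∃ s : SS 𝔹, ∀ (x : Fin 2 → V) (rk : Pl L × V → ℕ),
      (∀ d, vs 𝔹 (x d) = t d) → (Fv 𝔹 Φ rk (blk L r j (fun c => x (lr r c)))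
        (blk L r j (fun c => x (lr r c)))).2.1 = s.1 := by
    intro t
    choose x₀ hx₀ using fun d => (t d).2
    obtain ⟨rk₀, hrk₀⟩ := exists_rk (fun q : Unit × Fin 6 =>
      blk L r j (fun c => x₀ (lr r c)) q.2)
    have hcfg : Cfg r (fun _ : Unit => blk L r j (fun c => x₀ (lr r c))) rk₀ :=
      ⟨fun _ c => h.at_ c, fun _ _ c => h.adj c c,
        fun Z _ _ c c' hz hz' _ => (h.eq c c').2 (h.sh Z c c' hz hz'), hrk₀⟩
    obtain ⟨ψ, -, hcol⟩ := hC.out r Unit _ rk₀ hcfg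
    have hAdT : AdT (Sum.elim (blk L r j (fun c => x₀ (lr r c)))
        (blk L r j (fun c => x₀ (lr r c)))) := by
      rintro (i | i) (i' | i') <;> exact h.adj i i'
    have h1 := hcol () () hAdT
    refine ⟨⟨ty 𝔹 (ψ ()), ψ (), rfl⟩, fun x rk hx => ?_⟩
    have h2 : ty 𝔹 (ψ ()) = (Fv 𝔹 Φ rk₀ (blk L r j (fun c => x₀ (lr r c)))
        (blk L r j (fun c => x₀ (lr r c)))).2.1 := congrArg (fun y => y.2.1) h1
    show _ = ty 𝔹 (ψ ())
    rw [h2]
    unfold Fv
    rw [kind_eq 𝔹 hB.ar h x x₀ rk rk₀ fun d => ?_]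
    rw [hx₀ d]
    exact congrArg Subtype.val (hx d)
  choose v hv using key
  exact ⟨v, fun x rk _ => hv _ x rk fun _ => rfl⟩

end Pool.Agent.H49.LH
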